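import Pool.Agent.helper88.EF.Defs

/-! # Project KG (all dimensions): definitions -/

namespace Pool.Agent.helper88.KG

open Finset Pool.Agent.helper76.LP Pool.Agent.helper88.EF

/-- the basic estimate with an arbitrary bound `K` -/
def EstK (D q : ℕ) [NeZero D] (ev : Prop) (K : ℤ) (f : (ZMod D)ˣ → ℤ) : Prop :=
  ∀ (ψ : (ZMod D)ˣ → ℤ) (B : ℤ), Tst D q ψ → Bd D ev ψ B → |∑ z, f z * ψ z| ≤ K * B

/-- the hypotheses at one stage -/
structure RK (D q : ℕ) [NeZero D] (L : List ℕ) (ev : Prop) (K : ℤ) (f : (ZMod D)ˣ → ℤ) :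
    Prop where
  hq : q.Prime
  h11 : 11 ≤ q
  nd : (q :: L).Nodup
  hL : (q :: L).toFinset = D.primeFactors
  h4 : D % 4 ≠ 2
  odd : ∀ x, f (-x) = - f x
  mdv : MDv (Gam D) (q :: L) f
  est : EstK D q ev K f
  hK : K < 2 * ((q : ℤ) - 1)

end Pool.Agent.helper88.KG
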