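import Pool.Agent.helper88.KG.Ph
import Pool.Agent.helper76.UR.Fin

/-! # Project KG: the theorem for all dimensions -/

namespace Pool.Agent.helper88.KG

open Finset Pool.Agent.helper76.LP Pool.Agent.helper88.EF Pool.Agent.helper76.UR

open Pool.Agent.helper34.DH in
/-- removing the orders with prime factors `> Q0` -/
theorem big_primesK (E : AddSubgroup Qt) (hE : hh ∈ E) (m : ℕ) [NeZero m] (K : ℤ) (Q0 : ℕ)
    (hQ0 : ∀ q : ℕ, q.Prime → Q0 < q → 11 ≤ q ∧ K < 2 * ((q : ℤ) - 1))
    (h3 : ∀ q : ℕ, q.Prime → Q0 < q → 3 * q ∣ m → (∀ _ : NeZero (3 * q), FixE E (3 * q)) ∨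
      2 * K < (q : ℤ) - 1 ∨ (¬ Even m ∧ K < (q : ℤ) - 1))
    (h4 : ∀ q : ℕ, q.Prime → Q0 < q → 4 * q ∣ m →
      (∀ _ : NeZero (4 * q), FixE E (4 * q)) ∨ K < (q : ℤ) - 1)
    (h5 : ∀ q : ℕ, q.Prime → Q0 < q → 5 * q ∣ m →
      (∀ _ : NeZero (5 * q), FixE E (5 * q)) ∨ K < (q : ℤ) - 1 ∨ ¬ Even m) :
    ∀ (Q : ℕ) (c0 : ZMod m → ℤ), TateF (anti c0) → n60 (anti c0) ≤ K →
      (∀ x, anti c0 x ≠ 0 → ∀ p : ℕ, p.Prime → p ∣ addOrderOf x → p ≤ Q) →
      ∃ c' : ZMod m → ℤ, TateF (anti c') ∧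
        (∀ x, anti c' x ≠ 0 → ∀ p : ℕ, p.Prime → p ∣ addOrderOf x → p ≤ Q0 ∨ p ≤ 7) ∧
        cls m c0 - cls m c' ∈ E := by
  intro Q
  induction Q with
  | zero =>
    intro c0 hT hI hp
    refine ⟨c0, hT, fun x hx p hpp hpx => Or.inr ((hp x hx p hpp hpx).trans (by norm_num)), ?_⟩
    rw [sub_self]; exact E.zero_mem
  | succ Q ih =>
    intro c0 hT hI hp
    by_cases hQ : (Q + 1).Prime
    swap
    · refine ih c0 hT hI fun x hx p hpp hpx => ?_
      have h1 := hp x hx p hpp hpx
      have h2 : p ≠ Q + 1 := fun h => hQ (h ▸ hpp)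
      omega
    · by_cases h11 : Q0 < Q + 1
      · obtain ⟨h11', hK⟩ := hQ0 (Q + 1) hQ h11
        obtain ⟨c1, hT1, h1a, h1b, h1c⟩ := phaseK E hE m K (Q + 1) hQ h11' hK
          (h3 _ hQ h11) (h4 _ hQ h11) (h5 _ hQ h11) c0 hT hI hp
        have hI1 : n60 (anti c1) ≤ K := by
          refine le_trans (Finset.sum_le_sum fun x _ => ?_) hI
          split_ifs with h
          · exact le_rfl
          · by_cases h2 : Q + 1 ∣ addOrderOf x
            · rw [h1a x h2, abs_zero]; exact abs_nonneg _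
            · rw [h1b x h2 h]
        obtain ⟨c2, hT2, h2a, h2b⟩ := ih c1 hT1 hI1 (by
          intro x hx p hpp hpx
          by_cases h2 : Q + 1 ∣ addOrderOf x
          · exact absurd (h1a x h2) hx
          by_cases h60 : addOrderOf x ∣ 60
          · have h6 : p ∈ Nat.primeFactors 60 :=
              Nat.mem_primeFactors.2 ⟨hpp, hpx.trans h60, by norm_num⟩
            have : Nat.primeFactors 60 = {2, 3, 5} := by decide +kernel
            rw [this] at h6
            simp at h6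
            omega
          · rw [h1b x h2 h60] at hx
            have h3 := hp x hx p hpp hpx
            have h4 : p ≠ Q + 1 := by
              rintro rfl
              exact h2 hpx
            omega)
        refine ⟨c2, hT2, h2a, ?_⟩
        have h9 := E.add_mem h1c h2b
        rwa [sub_add_sub_cancel] at h9
      · refine ⟨c0, hT, fun x hx p hpp hpx => Or.inl ?_, by rw [sub_self]; exact E.zero_mem⟩
        have h1 := (hp x hx p hpp hpx)
        omega

/-- the part of `m` composed of primes `≤ Q` -/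
def smo (m Q : ℕ) : ℕ := ∏ p ∈ m.primeFactors.filter (· ≤ Q), p ^ m.factorization p

lemma smo_dvd (m Q : ℕ) (hm : m ≠ 0) : smo m Q ∣ m := by
  unfold smo
  conv_rhs => rw [← Nat.factorization_prod_pow_eq_self hm]
  rw [Finsupp.prod, Nat.support_factorization]
  exact Finset.prod_dvd_prod_of_subset _ _ _ (Finset.filter_subset _ _)

lemma dvd_smo (m Q n : ℕ) (hm : m ≠ 0) (hn : n ∣ m) (h : ∀ p : ℕ, p.Prime → p ∣ n → p ≤ Q) :
    n ∣ smo m Q := by
  have hn0 : n ≠ 0 := fun h => hm (Nat.eq_zero_of_zero_dvd (h ▸ hn))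
  unfold smo
  conv_lhs => rw [← Nat.factorization_prod_pow_eq_self hn0]
  rw [Finsupp.prod, Nat.support_factorization]
  have h1 : n.primeFactors ⊆ m.primeFactors.filter (· ≤ Q) := by
    intro p hp
    rw [Finset.mem_filter]
    exact ⟨Nat.primeFactors_mono hn hm hp, h p (Nat.prime_of_mem_primeFactors hp)
      (Nat.dvd_of_mem_primeFactors hp)⟩
  refine dvd_trans ?_ (Finset.prod_dvd_prod_of_subset _ _ _ h1)
  refine Finset.prod_dvd_prod_of_dvd _ _ fun p hp => ?_
  exact pow_dvd_pow _ ((Nat.factorization_le_iff_dvd hn0 hm).2 hn p)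

lemma prime_smo (m Q p : ℕ) (hp : p.Prime) (h : p ∣ smo m Q) : p ≤ Q := by
  unfold smo at h
  rw [Prime.dvd_finset_prod_iff hp.prime] at h
  obtain ⟨r, hr, hpr⟩ := h
  rw [Finset.mem_filter] at hr
  have := hp.dvd_of_dvd_pow hpr
  rw [Nat.prime_dvd_prime_iff_eq hp (Nat.prime_of_mem_primeFactors hr.1)] at this
  rw [this]
  exact hr.2

lemma MA_small_pair (x y : ℕ) (hx : x = 4 ∨ x.Prime ∧ Odd x) (hy : y = 4 ∨ y.Prime ∧ Odd y)
    (hxy : x < y) (h7 : y ≤ 7) : x * y ∈ GP := by
  have key : ∀ z : ℕ, (z = 4 ∨ z.Prime ∧ Odd z) → z ≤ 7 → z = 3 ∨ z = 4 ∨ z = 5 ∨ z = 7 := by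
    rintro z (h | ⟨h, h1⟩) h7
    · omega
    · have h2 := h.two_le
      interval_cases z
      · exact absurd h1 (by decide)
      · omega
      · omega
      · omega
      · exact absurd h (by norm_num)
      · omega
  rcases key x hx (by omega) with rfl | rfl | rfl | rfl <;>
    rcases key y hy h7 with rfl | rfl | rfl | rfl <;> first | omega | decide

open Pool.Agent.helper34.DH Pool.Agent.helper76.FV in
/-- all dimensions -/
theorem tate_all (d m : ℕ) (hm : 0 < m)
    (h : ∀ x y, Lam m x → Lam m y → x < y → x * y ∈ GP ∨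
      (2 * d + 1 < y ∧ (x = 3 → 8 * d + 1 < y ∨ (Odd m ∧ 4 * d + 1 < y)) ∧
        (x = 4 → 4 * d + 1 < y) ∧ (x = 5 → 4 * d + 1 < y ∨ Odd m)))
    (h420 : ¬ 420 ∣ m)
    {s : ℕ} (π : Fin (2 * d) → Fin s) (a : Fin (2 * d) → ZMod m) :
    IsTateChar m π a ↔ (∀ i, a i ≠ 0) ∧ BlockZero π a ∧ LefEquiv (pts a) 0 := by
  have : NeZero m := ⟨hm.ne'⟩
  rw [isTateChar_iff m hm]
  constructor
  swap
  · rintro ⟨h0, hb, hs⟩
    exact ⟨hb, tateM_of_equivMod tateGen_lef m hm _ a h0 hs⟩
  rintro ⟨hb, hT⟩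
  refine ⟨hT.1, hb, equivMod_of_cls tateGen_lef m d a hT.1 ?_⟩
  have hlamP : ∀ q : ℕ, q.Prime → 3 ≤ q → q ∣ m → Lam m q := fun q hq h3 hqm =>
    ⟨hqm, Or.inr ⟨hq, hq.odd_of_ne_two (by omega)⟩⟩
  have hn : n60 (anti (cnt a)) ≤ 4 * d := by
    have h1 : ∑ x, |anti (cnt a) x| ≤ ((2 * (2 * d) : ℕ) : ℤ) := by
      have h2 : ∀ x, |anti (cnt a) x| ≤ cnt a x + cnt a (-x) := by
        intro x
        unfold anti
        have h3 : ∀ y, 0 ≤ cnt a y := fun y => by
          unfold cnt
          exact Finset.sum_nonneg fun i _ => by split_ifs <;> norm_num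
        have := h3 x
        have := h3 (-x)
        rw [abs_le]
        constructor <;> linarith
      refine (Finset.sum_le_sum fun x _ => h2 x).trans ?_
      have h5 : ∑ x : ZMod m, cnt a (-x) = ∑ x, cnt a x :=
        Equiv.sum_comp (Equiv.neg (ZMod m)) (cnt a)
      rw [Finset.sum_add_distrib, h5]
      have h4 : ∑ x, cnt a x = (2 * d : ℕ) := by
        have := sum_cnt_smul a (fun _ => (1 : ℤ))
        simpa using this
      rw [h4]
      push_cast
      linarith
    have h2 : n60 (anti (cnt a)) ≤ ∑ x, |anti (cnt a) x| :=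
      Finset.sum_le_sum fun x _ => by
        split_ifs
        · exact abs_nonneg _
        · exact le_rfl
    refine h2.trans (h1.trans ?_)
    push_cast
    linarith
  -- the primes greater than `2 d + 1` and `7`
  have hmax : ∀ q : ℕ, max (2 * d + 1) 7 < q → 2 * d + 1 < q ∧ 7 < q := fun q h => by
    rw [max_lt_iff] at h
    exact h
  obtain ⟨c1, hT1, hp1, h1⟩ := big_primesK (EP IsLef) hh_mem' m (4 * d) (max (2 * d + 1) 7)
    (by
      intro q hq hq1
      obtain ⟨hq1, h7⟩ := hmax q hq1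
      refine ⟨?_, ?_⟩
      · by_contra hc
        push Not at hc
        interval_cases q
        all_goals exact absurd hq (by norm_num)
      · have : (2 * d + 1 : ℤ) < q := by exact_mod_cast hq1
        linarith)
    (by
      intro q hq hq1 hqm
      obtain ⟨hq1, h7⟩ := hmax q hq1
      rcases h 3 q ⟨(Dvd.intro q rfl).trans hqm, Or.inr ⟨by norm_num, by decide⟩⟩
        (hlamP q hq (by omega) ((Dvd.intro_left 3 rfl).trans hqm)) (by omega) with h | h
      · exact Or.inl fun hN => fixP_of_mem (3 * q) h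
      · right
        rcases h.2.1 rfl with h | h
        · left
          have : (8 * d + 1 : ℤ) < q := by exact_mod_cast h
          linarith
        · right
          have : (4 * d + 1 : ℤ) < q := by exact_mod_cast h.2
          exact ⟨Nat.not_even_iff_odd.2 h.1, by linarith⟩)
    (by
      intro q hq hq1 hqm
      obtain ⟨hq1, h7⟩ := hmax q hq1
      rcases h 4 q ⟨(Dvd.intro q rfl).trans hqm, Or.inl rfl⟩
        (hlamP q hq (by omega) ((Dvd.intro_left 4 rfl).trans hqm)) (by omega) with h | h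
      · exact Or.inl fun hN => fixP_of_mem (4 * q) h
      · right
        have : (4 * d + 1 : ℤ) < q := by exact_mod_cast h.2.2.1 rfl
        linarith)
    (by
      intro q hq hq1 hqm
      obtain ⟨hq1, h7⟩ := hmax q hq1
      rcases h 5 q ⟨(Dvd.intro q rfl).trans hqm, Or.inr ⟨by norm_num, by decide⟩⟩
        (hlamP q hq (by omega) ((Dvd.intro_left 5 rfl).trans hqm)) (by omega) with h | h
      · exact Or.inl fun hN => fixP_of_mem (5 * q) h
      · right
        rcases h.2.2.2 rfl with h | h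
        · left
          have : (4 * d + 1 : ℤ) < q := by exact_mod_cast h
          linarith
        · exact Or.inr (Nat.not_even_iff_odd.2 h))
    m (cnt a) (tateF_anti m a hT) hn
    (fun x _ p _ hpx => (Nat.le_of_dvd (addOrderOf_pos x) hpx).trans
      (Nat.le_of_dvd hm (addOrderOf_dvd' x)))
  -- descend
  set m' := smo m (max (2 * d + 1) 7) with hm'
  have hm'd : m' ∣ m := smo_dvd m _ hm.ne'
  have : NeZero m' := ⟨fun h => hm.ne' (Nat.eq_zero_of_zero_dvd (h ▸ hm'd))⟩
  obtain ⟨c2, hT2, h2a, j, h2b⟩ := descend m m' hm'd c1 hT1 (by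
    intro x hx
    refine dvd_smo m _ _ hm.ne' (addOrderOf_dvd' x) fun p hpp hpx => ?_
    rcases hp1 x hx p hpp hpx with h | h
    · exact h
    · exact h.trans (le_max_right _ _))
  have hgood : Good3 m' := by
    constructor
    · intro x y hx hy hxy
      have hxm : Lam m x := ⟨hx.1.trans hm'd, hx.2⟩
      have hym : Lam m y := ⟨hy.1.trans hm'd, hy.2⟩
      rcases h x y hxm hym hxy with h | h
      · exact h
      · refine MA_small_pair x y hx.2 hy.2 hxy ?_
        rcases hy.2 with h4 | h4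
        · omega
        · have h5 := prime_smo m (max (2 * d + 1) 7) y h4.1 hy.1
          rcases le_max_iff.1 h5 with h6 | h6 <;> omega
    · exact fun h => h420 (h.trans hm'd)
  have h3 := main_inductionP m' (goodFor_of_good3 m' hgood) m' c2 hT2
    (fun x _ => Nat.le_of_dvd (Nat.pos_of_ne_zero (NeZero.ne m')) (addOrderOf_dvd' x))
  have h4 : cls m c1 ∈ EP IsLef := by
    rw [h2b]
    exact (EP IsLef).add_mem h3 ((EP IsLef).zsmul_mem hh_mem' j)
  have h5 := (EP IsLef).add_mem h1 h4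
  rwa [sub_add_cancel] at h5

end Pool.Agent.helper88.KG
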