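import Pool.Agent.helper88.EF.Ph
import Pool.Agent.helper88.KG.Defs
import Pool.Agent.helper76.UR.Defs
import Pool.Agent.helper99.KG.KL
import Pool.Agent.helper33.KG.K1
import Pool.Agent.helper71.KG.DS

/-! # Project KG: removing the orders divisible by a prime `q` with `K < 2 (q - 1)` -/

namespace Pool.Agent.helper88.KG

open Finset Pool.Agent.helper76.LP Pool.Agent.helper88.EF

/-- norm of the points of order not dividing 60 -/
noncomputable def n60 {m : ℕ} [NeZero m] (F : ZMod m → ℤ) : ℤ := ∑ x, if addOrderOf x ∣ 60 then 0 else |F x|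

lemma PH_not60 (q : ℕ) (hq : q.Prime) (h7 : 7 ≤ q) {n : ℕ} (h : q ∣ n) : ¬ n ∣ 60 := by
  intro h1
  have h60 : q ∈ Nat.primeFactors 60 := Nat.mem_primeFactors.2 ⟨hq, h.trans h1, by norm_num⟩
  have : Nat.primeFactors 60 = {2, 3, 5} := by decide +kernel
  rw [this] at h60
  simp at h60
  omega

lemma PH_bound (m q : ℕ) [NeZero m] (hq : q.Prime) (h7 : 7 ≤ q) (K : ℤ) (F : ZMod m → ℤ)
    (hI : n60 F ≤ K) : (∑ x, if q ∣ addOrderOf x then |F x| else 0) ≤ K := by
  refine le_trans (Finset.sum_le_sum fun x _ => ?_) hI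
  split_ifs with h1 h2
  · exact absurd h2 (PH_not60 q hq h7 h1)
  · exact le_rfl
  · exact le_rfl
  · exact abs_nonneg _

lemma PH_rk (m q D : ℕ) [NeZero m] [NeZero D] (hq : q.Prime) (h11 : 11 ≤ q) (hqD : q ∣ D)
    (hD : D ∣ m) (h4 : D % 4 ≠ 2) (K : ℤ) (hK : K < 2 * ((q : ℤ) - 1)) (c0 c : ZMod m → ℤ)
    (hT : TateF (anti c0)) (hI : n60 (anti c0) ≤ K)
    (hS : St q D c0 c) (L : List ℕ) (hnd : (q :: L).Nodup)
    (hL : (q :: L).toFinset = D.primeFactors) :
    RK D q L (Even m) K (fun z => anti c (emb D m (z : ZMod D))) where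
  hq := hq
  h11 := h11
  nd := hnd
  hL := hL
  h4 := h4
  odd := by
    intro x
    rw [Units.val_neg, emb_neg hD, anti_odd]
  mdv := mdiff m (anti c) (anti_odd c) (hS.1.2.1 hT) D hD (PH_top m q D hqD c0 c hS) _ (by
    intro p hp
    rw [← hL] at hp
    exact List.mem_toFinset.1 hp)
  est := est_k m D q hD hq hqD K c0 c hS.1 (PH_top m q D hqD c0 c hS)
    (PH_bound m q hq (by omega) K _ hI)
  hK := hK

open Pool.Agent.helper34.DH in
/-- removing the orders divisible by `q` -/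
theorem phaseK (E : AddSubgroup Qt) (hE : hh ∈ E) (m : ℕ) [NeZero m] (K : ℤ)
    (q : ℕ) (hq : q.Prime) (h11 : 11 ≤ q) (hK : K < 2 * ((q : ℤ) - 1))
    (h3 : 3 * q ∣ m → (∀ _ : NeZero (3 * q), FixE E (3 * q)) ∨ 2 * K < (q : ℤ) - 1 ∨
      (¬ Even m ∧ K < (q : ℤ) - 1))
    (h4 : 4 * q ∣ m → (∀ _ : NeZero (4 * q), FixE E (4 * q)) ∨ K < (q : ℤ) - 1)
    (h5 : 5 * q ∣ m → (∀ _ : NeZero (5 * q), FixE E (5 * q)) ∨ K < (q : ℤ) - 1 ∨ ¬ Even m)
    (c0 : ZMod m → ℤ) (hT : TateF (anti c0)) (hI : n60 (anti c0) ≤ K)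
    (hp : ∀ x, anti c0 x ≠ 0 → ∀ p : ℕ, p.Prime → p ∣ addOrderOf x → p ≤ q) :
    ∃ c' : ZMod m → ℤ, TateF (anti c') ∧ (∀ x, q ∣ addOrderOf x → anti c' x = 0) ∧
      (∀ x, ¬ q ∣ addOrderOf x → ¬ addOrderOf x ∣ 60 → anti c' x = anti c0 x) ∧
      cls m c0 - cls m c' ∈ E := by
  classical
  have hK0 : 0 ≤ K := le_trans (Finset.sum_nonneg fun x _ => by
    split_ifs
    · exact le_rfl
    · exact abs_nonneg _) hI
  -- the number `k`
  obtain ⟨k, hk5, hk1, hk3, hk4, hk5'⟩ : ∃ k ≤ 5, (∀ n, 3 ≤ n → n ≤ k → n * q ∣ m →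
      ∀ _ : NeZero (n * q), FixE E (n * q)) ∧
      (k < 3 → 3 * q ∣ m → 2 * K < (q : ℤ) - 1 ∨ (¬ Even m ∧ K < (q : ℤ) - 1)) ∧
      (k < 4 → 4 * q ∣ m → K < (q : ℤ) - 1) ∧
      (k < 5 → 5 * q ∣ m → K < (q : ℤ) - 1 ∨ ¬ Even m) := by
    by_cases g5 : 5 * q ∣ m → K < (q : ℤ) - 1 ∨ ¬ Even m
    · by_cases g4 : 4 * q ∣ m → K < (q : ℤ) - 1
      · by_cases g3 : 3 * q ∣ m → 2 * K < (q : ℤ) - 1 ∨ (¬ Even m ∧ K < (q : ℤ) - 1)
        · exact ⟨0, by norm_num, fun n h3 h => by omega, fun _ => g3, fun _ => g4, fun _ => g5⟩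
        · push Not at g3
          refine ⟨3, le_rfl.trans (by norm_num), fun n h3' h hn => ?_, fun h => by omega,
            fun _ => g4, fun _ => g5⟩
          have : n = 3 := by omega
          subst this
          rcases h3 hn with h | h | h
          · exact h
          · linarith [g3.2.1]
          · linarith [g3.2.2 h.1, h.2]
      · push Not at g4
        refine ⟨4, by norm_num, fun n h3' h hn => ?_, fun h => by omega, fun h => by omega,
          fun _ => g5⟩
        have : n = 3 ∨ n = 4 := by omega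
        rcases this with rfl | rfl
        · rcases h3 hn with h | h | h
          · exact h
          · linarith [g4.2]
          · linarith [g4.2, h.2]
        · rcases h4 hn with h | h
          · exact h
          · linarith [g4.2]
    · push Not at g5
      refine ⟨5, by norm_num, fun n h3' h hn => ?_, fun h => by omega, fun h => by omega,
        fun h => by omega⟩
      have : n = 3 ∨ n = 4 ∨ n = 5 := by omega
      rcases this with rfl | rfl | rfl
      · rcases h3 hn with h | h | h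
        · exact h
        · linarith [g5.2.1]
        · exact absurd g5.2.2 h.1
      · rcases h4 hn with h | h
        · exact h
        · linarith [g5.2.1]
      · rcases h5 hn with h | h | h
        · exact h
        · linarith [g5.2.1]
        · exact absurd g5.2.2 h
  -- the loop
  have hloop : ∀ D, k * q < D → ∀ c, St q D c0 c → ∀ _ : NeZero D, q ∣ D → D ∣ m →
      ∀ L : List ℕ, (q :: L).Nodup → (q :: L).toFinset = D.primeFactors →
      (∀ p ∈ D.primeFactors, p ≤ q) →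
      MDv (Gam D) L (fun z => anti c (emb D m (z : ZMod D))) := by
    intro D hkD c hS hN hqD hDm L hnd hL hpr
    by_cases h4' : D % 4 = 2
    · refine mdv_two D q h4' L ?_ _
      have h2 : (2 : ℕ) ∈ (q :: L).toFinset := by
        rw [hL]
        exact Nat.mem_primeFactors.2 ⟨Nat.prime_two, by omega, hN.out⟩
      rw [List.mem_toFinset, List.mem_cons] at h2
      rcases h2 with h2 | h2
      · omega
      · exact h2
    refine kl D q L (Even m) K _
      (PH_rk m q D hq h11 hqD hDm h4' K hK c0 c hT hI hS L hnd hL) ?_ ?_ ?_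
    · intro h
      refine hk3 ?_ (h ▸ hDm)
      rw [h] at hkD
      exact lt_of_mul_lt_mul_right hkD (Nat.zero_le q)
    · intro h
      refine hk4 ?_ (h ▸ hDm)
      rw [h] at hkD
      exact lt_of_mul_lt_mul_right hkD (Nat.zero_le q)
    · intro h
      refine hk5' ?_ (h ▸ hDm)
      rw [h] at hkD
      exact lt_of_mul_lt_mul_right hkD (Nat.zero_le q)
  have hm0 : 0 < m := Nat.pos_of_ne_zero (NeZero.ne m)
  have hSt0 : ∀ K, m ≤ K → St q K c0 c0 := fun K hK => ⟨qeq_refl q m c0, hp, fun x _ _ =>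
    (Nat.le_of_dvd hm0 (addOrderOf_dvd' x)).trans hK⟩
  obtain ⟨c1, hQ1, hp1, hK1⟩ := PH_loop m q (k * q) hq (by omega) c0 hloop m c0
    (hSt0 _ (Nat.le_add_left _ _))
  obtain ⟨c2, hT2, h2a, h2b, h2c⟩ := tail E hE m q hq (by omega) k hk5 hk1 c1 (hQ1.2.1 hT) hK1
  refine ⟨c2, hT2, h2a, fun x h1 h2 => ?_, ?_⟩
  · rw [h2b x h1 h2, hQ1.2.2.1 x h1]
  · obtain ⟨j, hj⟩ := hQ1.1
    have h3 : cls m c0 - cls m c2 = (cls m c1 - cls m c2) - j • hh := by
      rw [hj]; abel
    rw [h3]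
    exact E.sub_mem h2c (E.zsmul_mem hE j)

end Pool.Agent.helper88.KG
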