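import Pool.Agent.helper88.KG.Defs
import Pool.Agent.helper76.UR.Defs

/-! # Project KG: module statements -/

namespace Pool.Agent.helper88.KG

open Finset Pool.Agent.helper76.LP Pool.Agent.helper88.EF

/-! ### the basic estimate -/

theorem est_k (m D q : ℕ) [NeZero m] [NeZero D] (hD : D ∣ m) (hq : q.Prime) (hqD : q ∣ D)
    (K : ℤ) (c0 c : ZMod m → ℤ) (hQ : QEq q c0 c)
    (hmax : ∀ x, D ∣ addOrderOf x → addOrderOf x ≠ D → anti c x = 0)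
    (hb : (∑ x, if q ∣ addOrderOf x then |anti c0 x| else 0) ≤ K) :
    EstK D q (Even m) K (fun z => anti c (emb D m (z : ZMod D))) := sorry

/-! ### no obstruction at one stage -/

theorem k1 (D q : ℕ) [NeZero D] (L : List ℕ) (ev : Prop) (K : ℤ) (f : (ZMod D)ˣ → ℤ)
    (h : RK D q L ev K f) (h2 : q * q ∣ D) : MDv (Gam D) L f := sorry

theorem k2 (D q : ℕ) [NeZero D] (L : List ℕ) (ev : Prop) (K : ℤ) (f : (ZMod D)ˣ → ℤ)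
    (h : RK D q L ev K f) (h4 : 4 ∣ D) (h2 : ¬ q * q ∣ D) (ha : D ≠ 4 * q)
    (hb : D ≠ 12 * q) : MDv (Gam D) L f := sorry

theorem k3 (D q : ℕ) [NeZero D] (L : List ℕ) (ev : Prop) (K : ℤ) (f : (ZMod D)ˣ → ℤ)
    (h : RK D q L ev K f) (hD : D = 12 * q) : MDv (Gam D) L f := sorry

theorem k4 (D q : ℕ) [NeZero D] (L : List ℕ) (ev : Prop) (K : ℤ) (f : (ZMod D)ˣ → ℤ)
    (h : RK D q L ev K f) (hD : D = q) : MDv (Gam D) L f := sorry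

theorem k5 (D q : ℕ) [NeZero D] (L : List ℕ) (ev : Prop) (K : ℤ) (f : (ZMod D)ˣ → ℤ)
    (h : RK D q L ev K f) (hD : D = 4 * q) (hK : K < (q : ℤ) - 1) : MDv (Gam D) L f := sorry

theorem k6 (D q : ℕ) [NeZero D] (L : List ℕ) (ev : Prop) (K : ℤ) (f : (ZMod D)ˣ → ℤ)
    (h : RK D q L ev K f) (hD : D = 3 * q)
    (hK : 2 * K < (q : ℤ) - 1 ∨ (¬ ev ∧ K < (q : ℤ) - 1)) : MDv (Gam D) L f := sorry

theorem k7 (D q : ℕ) [NeZero D] (L : List ℕ) (ev : Prop) (K : ℤ) (f : (ZMod D)ˣ → ℤ)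
    (h : RK D q L ev K f) (hD : D = 5 * q) (hK : K < (q : ℤ) - 1 ∨ ¬ ev) :
    MDv (Gam D) L f := sorry

theorem k8 (D q : ℕ) [NeZero D] (L : List ℕ) (ev : Prop) (K : ℤ) (f : (ZMod D)ˣ → ℤ)
    (h : RK D q L ev K f) (ho : Odd D) (h2 : ¬ q * q ∣ D)
    (hr : (∃ r : ℕ, r.Prime ∧ 5 ≤ r ∧ r * r ∣ D) ∨ 27 ∣ D) : MDv (Gam D) L f := sorry

/-- a prime `p ≥ 11`, `p ≠ q`: `V p` = all residues except `±1, ±2, ±1/2` -/
theorem k9 (D q : ℕ) [NeZero D] (L : List ℕ) (ev : Prop) (K : ℤ) (f : (ZMod D)ˣ → ℤ)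
    (h : RK D q L ev K f) (ho : Odd D) (h2 : ¬ q * q ∣ D) (p : ℕ) (hp : p.Prime)
    (h11 : 11 ≤ p) (hpq : p ≠ q) (hpD : p ∣ D) (hpp : ¬ p * p ∣ D) : MDv (Gam D) L f := sorry

theorem k10 (D q : ℕ) [NeZero D] (L : List ℕ) (ev : Prop) (K : ℤ) (f : (ZMod D)ˣ → ℤ)
    (h : RK D q L ev K f) (ho : Odd D) (h2 : ¬ q * q ∣ D) (h9 : 9 ∣ D)
    (h7 : 7 ∣ D) (h49 : ¬ 7 * 7 ∣ D) : MDv (Gam D) L f := sorry

theorem k11 (D q : ℕ) [NeZero D] (L : List ℕ) (ev : Prop) (K : ℤ) (f : (ZMod D)ˣ → ℤ)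
    (h : RK D q L ev K f) (hD : D = 9 * q) : MDv (Gam D) L f := sorry

theorem k12 (D q : ℕ) [NeZero D] (L : List ℕ) (ev : Prop) (K : ℤ) (f : (ZMod D)ˣ → ℤ)
    (h : RK D q L ev K f) (hD : D = 45 * q) : MDv (Gam D) L f := sorry

theorem k13 (D q : ℕ) [NeZero D] (L : List ℕ) (ev : Prop) (K : ℤ) (f : (ZMod D)ˣ → ℤ)
    (h : RK D q L ev K f) (hD : D = 7 * q) : MDv (Gam D) L f := sorry

theorem k14 (D q : ℕ) [NeZero D] (L : List ℕ) (ev : Prop) (K : ℤ) (f : (ZMod D)ˣ → ℤ)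
    (h : RK D q L ev K f) (hD : D = 21 * q) : MDv (Gam D) L f := sorry

theorem k15 (D q : ℕ) [NeZero D] (L : List ℕ) (ev : Prop) (K : ℤ) (f : (ZMod D)ˣ → ℤ)
    (h : RK D q L ev K f) (hD : D = 35 * q) : MDv (Gam D) L f := sorry

theorem k16 (D q : ℕ) [NeZero D] (L : List ℕ) (ev : Prop) (K : ℤ) (f : (ZMod D)ˣ → ℤ)
    (h : RK D q L ev K f) (hD : D = 15 * q) : MDv (Gam D) L f := sorry

theorem k17 (D q : ℕ) [NeZero D] (L : List ℕ) (ev : Prop) (K : ℤ) (f : (ZMod D)ˣ → ℤ)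
    (h : RK D q L ev K f) (hD : D = 105 * q) : MDv (Gam D) L f := sorry

theorem kl (D q : ℕ) [NeZero D] (L : List ℕ) (ev : Prop) (K : ℤ) (f : (ZMod D)ˣ → ℤ)
    (h : RK D q L ev K f)
    (h3 : D = 3 * q → 2 * K < (q : ℤ) - 1 ∨ (¬ ev ∧ K < (q : ℤ) - 1))
    (h4 : D = 4 * q → K < (q : ℤ) - 1) (h5 : D = 5 * q → K < (q : ℤ) - 1 ∨ ¬ ev) :
    MDv (Gam D) L f := sorry

/-! ### DS: descending to the part of `m` with small primes -/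

open Pool.Agent.helper34.DH in
theorem descend (m m' : ℕ) [NeZero m] [NeZero m'] (h : m' ∣ m) (c : ZMod m → ℤ)
    (hT : TateF (anti c)) (hs : ∀ x, anti c x ≠ 0 → addOrderOf x ∣ m') :
    ∃ c' : ZMod m' → ℤ, TateF (anti c') ∧ (∀ y, anti c' y = anti c (emb m' m y)) ∧
      ∃ j : ℤ, cls m c = cls m' c' + j • hh := sorry

end Pool.Agent.helper88.KG
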